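import Mathlib

/-!
# MP_2f48ba_co, Q2: the logarithmic factor is necessary

Every `d`-dimensional permutation of order `n` (`d ≥ 2`) has an empty cube of side
`((1 - 1/d - o(1)) n log n)^(1/d)`.
-/

set_option autoImplicit false

namespace Pool.Agent.Results.MP_2f48ba_co.LogFactorNeeded

open Filter Finset

/-- greedy choice of a set `T` of size `s` disjoint from many of the sets `B z` -/
theorem greedy (n b S : ℕ) (hS : S < n) (hb : (b : ℝ) ≤ (n : ℝ) - S)
    (B : Fin n → Finset (Fin n)) (hB : ∀ z, (B z).card ≤ b) :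
    ∀ s : ℕ, s ≤ S → ∃ T : Finset (Fin n), T.card = s ∧
      (n : ℝ) * (1 - (b : ℝ) / ((n : ℝ) - S)) ^ s ≤
        ((univ.filter (fun z => Disjoint (B z) T)).card : ℝ) := by
  intro s
  have hnS : (0 : ℝ) < (n : ℝ) - S := by
    have : (S : ℝ) < n := by exact_mod_cast hS
    linarith
  induction s with
  | zero =>
    intro _
    refine ⟨∅, by simp, ?_⟩
    simp
  | succ s ih =>
    intro hs
    obtain ⟨T, hT, hZ⟩ := ih (by omega)
    set Z := univ.filter (fun z => Disjoint (B z) T) with hZdef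
    -- double counting
    have hsum : ∑ x ∈ (univ \ T : Finset (Fin n)), ((Z.filter (fun z => x ∈ B z)).card) ≤
        b * Z.card := by
      have h1 : ∑ x ∈ (univ \ T : Finset (Fin n)), ((Z.filter (fun z => x ∈ B z)).card) ≤
          ∑ x : Fin n, ((Z.filter (fun z => x ∈ B z)).card) :=
        Finset.sum_le_sum_of_subset (Finset.subset_univ _)
      have h2 : ∑ x : Fin n, ((Z.filter (fun z => x ∈ B z)).card) = ∑ z ∈ Z, (B z).card := by
        simp only [Finset.card_filter]
        rw [Finset.sum_comm]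
        refine Finset.sum_congr rfl (fun z _ => ?_)
        rw [← Finset.card_filter]
        congr 1
        ext x
        simp
      have h3 : ∑ z ∈ Z, (B z).card ≤ ∑ z ∈ Z, b := Finset.sum_le_sum (fun z _ => hB z)
      rw [Finset.sum_const, smul_eq_mul, mul_comm] at h3
      exact h1.trans (h2 ▸ h3)
    have hcardT : ((univ \ T : Finset (Fin n)).card) = n - s := by
      rw [Finset.card_sdiff_of_subset (Finset.subset_univ _), hT]; simp
    have hne : (univ \ T : Finset (Fin n)).Nonempty := by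
      rw [← Finset.card_pos, hcardT]; omega
    obtain ⟨x, hx, hxmin⟩ := Finset.exists_min_image (univ \ T : Finset (Fin n))
      (fun x => (Z.filter (fun z => x ∈ B z)).card) hne
    have hxT : x ∉ T := by simpa using hx
    set k := (Z.filter (fun z => x ∈ B z)).card with hk
    have hkm : (n - s) * k ≤ b * Z.card := by
      have := Finset.card_nsmul_le_sum (univ \ T : Finset (Fin n))
        (fun x => (Z.filter (fun z => x ∈ B z)).card) k (fun y hy => hxmin y hy)
      rw [hcardT, smul_eq_mul] at this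
      exact this.trans hsum
    have hkr : ((n : ℝ) - S) * k ≤ b * Z.card := by
      have h1 : ((n : ℝ) - S) ≤ ((n - s : ℕ) : ℝ) := by
        rw [Nat.cast_sub (by omega)]
        have : (s : ℝ) ≤ S := by exact_mod_cast (by omega : s ≤ S)
        linarith
      have h2 : (((n - s : ℕ) : ℝ)) * k ≤ b * Z.card := by exact_mod_cast hkm
      exact (mul_le_mul_of_nonneg_right h1 (Nat.cast_nonneg _)).trans h2
    refine ⟨insert x T, by rw [Finset.card_insert_of_notMem hxT, hT], ?_⟩
    have hZ' : (univ.filter (fun z => Disjoint (B z) (insert x T))) =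
        Z.filter (fun z => ¬ x ∈ B z) := by
      ext z
      simp only [hZdef, Finset.mem_filter, Finset.mem_univ, true_and,
        Finset.disjoint_insert_right]
      tauto
    have hcard : ((Z.filter (fun z => ¬ x ∈ B z)).card : ℝ) = Z.card - k := by
      have := Finset.card_filter_add_card_filter_not (s := Z) (fun z => x ∈ B z)
      rw [← this]
      push_cast
      ring
    rw [hZ', hcard, pow_succ]
    have h1b : 0 ≤ 1 - (b : ℝ) / ((n : ℝ) - S) := by
      rw [sub_nonneg, div_le_one hnS]; exact hb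
    have h4 : (k : ℝ) ≤ b / ((n : ℝ) - S) * Z.card := by
      rw [div_mul_eq_mul_div, le_div_iff₀ hnS]
      linarith
    calc (n : ℝ) * ((1 - (b : ℝ) / ((n : ℝ) - S)) ^ s * (1 - (b : ℝ) / ((n : ℝ) - S)))
        = (n : ℝ) * (1 - (b : ℝ) / ((n : ℝ) - S)) ^ s * (1 - (b : ℝ) / ((n : ℝ) - S)) := by ring
      _ ≤ Z.card * (1 - (b : ℝ) / ((n : ℝ) - S)) := mul_le_mul_of_nonneg_right hZ h1b
      _ ≤ Z.card - k := by linarith

/-- the combinatorial core -/
theorem core (d n s : ℕ) (hd : 2 ≤ d) (hs : s < n)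
    (hb : ((s ^ (d - 1) : ℕ) : ℝ) ≤ (n : ℝ) - s)
    (hmain : (s : ℝ) ≤ (n : ℝ) * (1 - ((s ^ (d - 1) : ℕ) : ℝ) / ((n : ℝ) - s)) ^ s)
    (A : (Fin (d + 1) → Fin n) → Fin 2)
    (hA : ∀ (i : Fin (d + 1)) (α : Fin (d + 1) → Fin n),
      ∃! x : Fin n, A (Function.update α i x) = 1) :
    ∃ T : Fin (d + 1) → Finset (Fin n), (∀ i, (T i).card = s) ∧
      ∀ α : Fin (d + 1) → Fin n, (∀ i, α i ∈ T i) → A α = 0 := by
  classical
  have hn : 0 < n := by omega
  obtain ⟨S0, -, hS0⟩ := Finset.exists_subset_card_eq (s := (univ : Finset (Fin n))) (n := s)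
    (by simp; omega)
  have h0l : (0 : Fin (d + 1)) ≠ Fin.last d := by
    intro h
    have := congrArg Fin.val h
    simp at this
    omega
  -- the solutions
  choose x hx hxu using fun α => hA 0 α
  let P : Fin n → Finset (Fin (d + 1) → Fin n) := fun z =>
    Fintype.piFinset (fun i => if i = 0 ∨ i = Fin.last d then {z} else S0)
  let B : Fin n → Finset (Fin n) := fun z => (P z).image x
  have hPcard : ∀ z, (P z).card = s ^ (d - 1) := by
    intro z
    simp only [P, Fintype.card_piFinset]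
    have h1 : ∀ i : Fin (d + 1), (if i = 0 ∨ i = Fin.last d then ({z} : Finset (Fin n)) else S0).card
        = if i = 0 ∨ i = Fin.last d then 1 else s := by
      intro i
      split_ifs <;> simp [hS0]
    simp only [h1]
    rw [Finset.prod_ite]
    simp only [Finset.prod_const_one, one_mul, Finset.prod_const]
    congr 1
    have h2 : (univ.filter (fun i : Fin (d + 1) => ¬ (i = 0 ∨ i = Fin.last d))) =
        univ \ {0, Fin.last d} := by
      ext i; simp
    rw [h2, Finset.card_sdiff_of_subset (Finset.subset_univ _), Finset.card_pair h0l]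
    simp
  have hBcard : ∀ z, (B z).card ≤ s ^ (d - 1) := fun z =>
    (Finset.card_image_le).trans (hPcard z).le
  obtain ⟨T, hT, hZ⟩ := greedy n (s ^ (d - 1)) s hs hb B hBcard s le_rfl
  have hZs : s ≤ (univ.filter (fun z => Disjoint (B z) T)).card := by
    exact_mod_cast hmain.trans hZ
  obtain ⟨Z', hZ'sub, hZ'⟩ := Finset.exists_subset_card_eq hZs
  refine ⟨fun i => if i = 0 then T else if i = Fin.last d then Z' else S0, ?_, ?_⟩
  · intro i
    by_cases h1 : i = 0
    · simp [h1, hT]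
    · by_cases h2 : i = Fin.last d
      · simp [h2, hZ', h0l.symm]
      · simp [h1, h2, hS0]
  · intro α hα
    by_contra hne
    have hA1 : A α = 1 := by
      have : ∀ y : Fin 2, y ≠ 0 → y = 1 := by decide
      exact this _ hne
    have hα0 : α 0 ∈ T := by simpa using hα 0
    have hαl : α (Fin.last d) ∈ Z' := by
      have := hα (Fin.last d)
      simpa [h0l.symm] using this
    have hdis := (Finset.mem_filter.mp (hZ'sub hαl)).2
    have hmem : α 0 ∈ B (α (Fin.last d)) := by
      refine Finset.mem_image.mpr ⟨Function.update α 0 (α (Fin.last d)), ?_, ?_⟩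
      · refine Fintype.mem_piFinset.mpr (fun i => ?_)
        by_cases h1 : i = 0
        · subst h1; simp
        · by_cases h2 : i = Fin.last d
          · subst h2; simp [Function.update_of_ne h1]
          · have := hα i
            simp only [h1, h2, if_false] at this
            simp [h1, h2, this]
      · have h3 := hxu (Function.update α 0 (α (Fin.last d))) (α 0) (by
          simp only [Function.update_idem, Function.update_eq_self]
          exact hA1)
        exact h3.symm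
    exact (Finset.disjoint_left.mp hdis) hmem hα0

/-- the choice of the side -/
theorem analysis (d : ℕ) (hd : 2 ≤ d) (c : ℝ) (hc0 : 0 < c) (hc : c < 1 - 1 / (d : ℝ)) :
    ∀ᶠ n : ℕ in atTop, ∃ s : ℕ, s < n ∧
      (c * ((n : ℝ) * Real.log n)) ^ (1 / (d : ℝ)) ≤ (s : ℝ) ∧
      ((s ^ (d - 1) : ℕ) : ℝ) ≤ (n : ℝ) - s ∧
      (s : ℝ) ≤ (n : ℝ) * (1 - ((s ^ (d - 1) : ℕ) : ℝ) / ((n : ℝ) - s)) ^ s := by
  have hd0 : (0 : ℝ) < d := by exact_mod_cast (by omega : 0 < d)
  obtain ⟨c1, hcc1, hc1⟩ := exists_between hc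
  obtain ⟨c2, hc12, hc2⟩ := exists_between hc1
  have hc1pos : 0 < c1 := hc0.trans hcc1
  have hc2pos : 0 < c2 := hc1pos.trans hc12
  -- `δ` with `c1 ≤ c2 (1 - δ)`
  set δ : ℝ := 1 - c1 / c2 with hδ
  have hδpos : 0 < δ := by
    rw [hδ, sub_pos, div_lt_one hc2pos]; exact hc12
  have hc1δ : c1 = c2 * (1 - δ) := by
    rw [hδ]; field_simp; ring
  have h1δ : 0 < 1 - δ := by
    rw [hδ]; simp; positivity
  set e : ℝ := (d : ℝ) * (1 - c2) - 1 with he
  have hepos : 0 < e := by
    rw [he]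
    have : 1 / (d : ℝ) < 1 - c2 := by linarith
    rw [div_lt_iff₀ hd0] at this
    linarith
  let y : ℕ → ℝ := fun n => (c * ((n : ℝ) * Real.log n)) ^ (1 / (d : ℝ))
  have hcast : Tendsto (fun n : ℕ => (n : ℝ)) atTop atTop := tendsto_natCast_atTop_atTop
  have hlog : Tendsto (fun n : ℕ => Real.log (n : ℝ)) atTop atTop :=
    Real.tendsto_log_atTop.comp hcast
  have hy : Tendsto y atTop atTop := by
    have h1 : Tendsto (fun n : ℕ => c * ((n : ℝ) * Real.log n)) atTop atTop :=
      (hcast.atTop_mul_atTop₀ hlog).const_mul_atTop hc0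
    exact (tendsto_rpow_atTop (by positivity)).comp h1
  -- (1 + 1/y)^d ≤ c1 / c
  have hratio : ∀ᶠ n : ℕ in atTop, (1 + 1 / y n) ^ d < c1 / c := by
    have h1 : Tendsto (fun n => 1 / y n) atTop (nhds 0) := by
      have h := hy.inv_tendsto_atTop
      refine h.congr (fun n => ?_)
      simp [Pi.inv_apply]
    have h2 : Tendsto (fun n => (1 + 1 / y n) ^ d) atTop (nhds ((1 + 0) ^ d)) :=
      ((tendsto_const_nhds).add h1).pow d
    rw [add_zero, one_pow] at h2
    exact h2.eventually_lt_const (by rw [one_lt_div hc0]; exact hcc1)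
  -- log n small against powers
  have hlo : ∀ (r K : ℝ), 0 < r → 0 < K → ∀ᶠ n : ℕ in atTop, Real.log (n : ℝ) ≤ K * (n : ℝ) ^ r := by
    intro r K hr hK
    have h1 := (isLittleO_log_rpow_atTop hr).def hK
    have h2 := hcast.eventually h1
    filter_upwards [h2, hlog.eventually_ge_atTop 0, hcast.eventually_ge_atTop 0] with n h3 h4 h5
    rw [Real.norm_of_nonneg h4, Real.norm_of_nonneg (Real.rpow_nonneg h5 _)] at h3
    exact h3
  filter_upwards [hratio, hy.eventually_ge_atTop 1, hlog.eventually_ge_atTop 1,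
    hcast.eventually_ge_atTop 1,
    hlo (1 / (d : ℝ)) (δ * c ^ (1 / (d : ℝ)) / (2 * c1)) (by positivity) (by positivity),
    hlo e (1 / c1) hepos (by positivity)] with n hr hy1 hl1 hn1 hA hB
  set L := Real.log (n : ℝ) with hL
  have hn0 : (0 : ℝ) < n := by linarith
  have hL0 : 0 < L := by linarith
  have hyd : y n ^ d = c * ((n : ℝ) * L) := by
    simp only [y]
    rw [← Real.rpow_natCast, ← Real.rpow_mul (by positivity)]
    rw [one_div, inv_mul_cancel₀ hd0.ne', Real.rpow_one]
  set s : ℕ := ⌈y n⌉₊ with hs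
  have hys : y n ≤ s := Nat.le_ceil _
  have hsy : (s : ℝ) ≤ y n + 1 := (Nat.ceil_lt_add_one (by linarith)).le
  have hs1 : (1 : ℝ) ≤ s := hy1.trans hys
  have hs0 : (0 : ℝ) < s := by linarith
  -- s^d ≤ c1 n L
  have hsd : (s : ℝ) ^ d ≤ c1 * ((n : ℝ) * L) := by
    have h1 : (s : ℝ) ^ d ≤ (y n + 1) ^ d := pow_le_pow_left₀ hs0.le hsy d
    have h2 : y n + 1 = y n * (1 + 1 / y n) := by field_simp
    rw [h2, mul_pow, hyd] at h1
    have h3 : c * ((n : ℝ) * L) * (1 + 1 / y n) ^ d ≤ c * ((n : ℝ) * L) * (c1 / c) :=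
      mul_le_mul_of_nonneg_left hr.le (by positivity)
    have h4 : c * ((n : ℝ) * L) * (c1 / c) = c1 * ((n : ℝ) * L) := by field_simp
    linarith
  set b : ℝ := ((s ^ (d - 1) : ℕ) : ℝ) with hb
  have hbs : b * s = (s : ℝ) ^ d := by
    rw [hb]; push_cast
    rw [← pow_succ]; congr 1; omega
  have hb0 : 0 < b := by rw [hb]; push_cast; positivity
  have hsb : (s : ℝ) ≤ b := by
    rw [hb]; push_cast
    calc (s : ℝ) = (s : ℝ) ^ 1 := (pow_one _).symm
      _ ≤ (s : ℝ) ^ (d - 1) := pow_le_pow_right₀ hs1 (by omega)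
  -- b ≤ δ n / 2
  have hbn : b ≤ δ * n / 2 := by
    -- y n ≥ c^(1/d) n^(1/d)
    have h1 : c ^ (1 / (d : ℝ)) * (n : ℝ) ^ (1 / (d : ℝ)) ≤ y n := by
      rw [← Real.mul_rpow hc0.le hn0.le]
      apply Real.rpow_le_rpow (by positivity) _ (by positivity)
      have : (n : ℝ) ≤ n * L := by nlinarith
      nlinarith
    have h2 : b * s ≤ c1 * n * (δ * c ^ (1 / (d : ℝ)) / (2 * c1) * (n : ℝ) ^ (1 / (d : ℝ))) := by
      rw [hbs]
      refine hsd.trans ?_
      rw [← mul_assoc]
      exact mul_le_mul_of_nonneg_left hA (by positivity)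
    have h3 : c1 * n * (δ * c ^ (1 / (d : ℝ)) / (2 * c1) * (n : ℝ) ^ (1 / (d : ℝ))) =
        (δ * n / 2) * (c ^ (1 / (d : ℝ)) * (n : ℝ) ^ (1 / (d : ℝ))) := by
      field_simp
    have h4 : b * s ≤ (δ * n / 2) * s := by
      rw [h3] at h2
      refine h2.trans (mul_le_mul_of_nonneg_left (h1.trans hys) (by positivity))
    exact le_of_mul_le_mul_right h4 hs0
  have hδ1 : δ < 1 := by linarith
  have hsum : (1 - δ) * n ≤ (n : ℝ) - s - b := by nlinarith
  have hpos : 0 < (n : ℝ) - s - b := lt_of_lt_of_le (by positivity) hsum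
  have hns : 0 < (n : ℝ) - s := by linarith
  refine ⟨s, by exact_mod_cast (by linarith : (s : ℝ) < n), hys, by linarith, ?_⟩
  -- lower bound of the power
  have hx1 : 0 < 1 - b / ((n : ℝ) - s) := by
    rw [sub_pos, div_lt_one hns]; linarith
  have hexp : Real.exp (-(b / ((n : ℝ) - s - b))) ≤ 1 - b / ((n : ℝ) - s) := by
    rw [Real.exp_neg]
    rw [inv_le_comm₀ (Real.exp_pos _) hx1]
    have h1 : (1 - b / ((n : ℝ) - s))⁻¹ = b / ((n : ℝ) - s - b) + 1 := by
      field_simp
      ring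
    rw [h1]
    exact Real.add_one_le_exp _
  have hpow : Real.exp (-(c2 * L)) ≤ (1 - b / ((n : ℝ) - s)) ^ s := by
    calc Real.exp (-(c2 * L)) ≤ Real.exp (s * (-(b / ((n : ℝ) - s - b)))) := by
          apply Real.exp_le_exp.mpr
          have h1 : (s : ℝ) * (b / ((n : ℝ) - s - b)) ≤ c2 * L := by
            rw [mul_div_assoc', div_le_iff₀ hpos, mul_comm (s : ℝ) b, hbs]
            calc (s : ℝ) ^ d ≤ c1 * ((n : ℝ) * L) := hsd
              _ = c2 * L * ((1 - δ) * n) := by rw [hc1δ]; ring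
              _ ≤ c2 * L * ((n : ℝ) - s - b) := mul_le_mul_of_nonneg_left hsum (by positivity)
          linarith
      _ = Real.exp (-(b / ((n : ℝ) - s - b))) ^ s := by rw [Real.exp_nat_mul]
      _ ≤ (1 - b / ((n : ℝ) - s)) ^ s := pow_le_pow_left₀ (Real.exp_pos _).le hexp s
  have hfin : (s : ℝ) ≤ (n : ℝ) * Real.exp (-(c2 * L)) := by
    have h1 : (n : ℝ) * Real.exp (-(c2 * L)) = (n : ℝ) ^ (1 - c2) := by
      rw [Real.rpow_sub hn0, Real.rpow_one, Real.rpow_def_of_pos hn0, Real.exp_neg]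
      rw [← hL, mul_comm L c2]
      rfl
    rw [h1]
    have h2 : (s : ℝ) ^ d ≤ ((n : ℝ) ^ (1 - c2)) ^ d := by
      calc (s : ℝ) ^ d ≤ c1 * ((n : ℝ) * L) := hsd
        _ ≤ c1 * ((n : ℝ) * (1 / c1 * (n : ℝ) ^ e)) := by
            apply mul_le_mul_of_nonneg_left _ hc1pos.le
            exact mul_le_mul_of_nonneg_left hB hn0.le
        _ = (n : ℝ) * (n : ℝ) ^ e := by field_simp
        _ = (n : ℝ) ^ (1 + e) := by rw [Real.rpow_add hn0, Real.rpow_one]
        _ = ((n : ℝ) ^ (1 - c2)) ^ d := by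
            rw [← Real.rpow_natCast, ← Real.rpow_mul hn0.le]
            congr 1
            rw [he]; ring
    exact le_of_pow_le_pow_left₀ (by omega) (by positivity) h2
  exact hfin.trans (mul_le_mul_of_nonneg_left hpow hn0.le)

/-- Q2 has a negative answer for every `d ≥ 2`.
(1) For every `0 < c < 1 - 1/d` and all sufficiently large `n`, every `d`-dimensional permutation of
order `n` has an empty cube of side at least `(c n log n)^(1/d)`.
(2) In particular, for every `C` and all sufficiently large `n`, every `d`-dimensional permutation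
of order `n` has an empty cube of side greater than `C n^(1/d)`. -/
theorem result (d : ℕ) (hd : 2 ≤ d) :
    (∀ c : ℝ, 0 < c → c < 1 - 1 / (d : ℝ) → ∀ᶠ n : ℕ in atTop,
      ∀ A : (Fin (d + 1) → Fin n) → Fin 2,
        (∀ (i : Fin (d + 1)) (α : Fin (d + 1) → Fin n),
          ∃! x : Fin n, A (Function.update α i x) = 1) →
        ∃ (s : ℕ) (T : Fin (d + 1) → Finset (Fin n)), (∀ i, (T i).card = s) ∧
          (∀ α : Fin (d + 1) → Fin n, (∀ i, α i ∈ T i) → A α = 0) ∧
          (c * ((n : ℝ) * Real.log n)) ^ (1 / (d : ℝ)) ≤ (s : ℝ)) ∧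
    (∀ C : ℝ, ∀ᶠ n : ℕ in atTop,
      ∀ A : (Fin (d + 1) → Fin n) → Fin 2,
        (∀ (i : Fin (d + 1)) (α : Fin (d + 1) → Fin n),
          ∃! x : Fin n, A (Function.update α i x) = 1) →
        ∃ (s : ℕ) (T : Fin (d + 1) → Finset (Fin n)), (∀ i, (T i).card = s) ∧
          (∀ α : Fin (d + 1) → Fin n, (∀ i, α i ∈ T i) → A α = 0) ∧
          C * (n : ℝ) ^ (1 / (d : ℝ)) < (s : ℝ)) := by
  have hd0 : (0 : ℝ) < d := by exact_mod_cast (by omega : 0 < d)
  have hd2 : (2 : ℝ) ≤ d := by exact_mod_cast hd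
  have hhalf : 1 / (d : ℝ) ≤ 1 / 2 := one_div_le_one_div_of_le (by norm_num) hd2
  have key : ∀ c : ℝ, 0 < c → c < 1 - 1 / (d : ℝ) → ∀ᶠ n : ℕ in atTop,
      ∀ A : (Fin (d + 1) → Fin n) → Fin 2,
        (∀ (i : Fin (d + 1)) (α : Fin (d + 1) → Fin n),
          ∃! x : Fin n, A (Function.update α i x) = 1) →
        ∃ (s : ℕ) (T : Fin (d + 1) → Finset (Fin n)), (∀ i, (T i).card = s) ∧
          (∀ α : Fin (d + 1) → Fin n, (∀ i, α i ∈ T i) → A α = 0) ∧
          (c * ((n : ℝ) * Real.log n)) ^ (1 / (d : ℝ)) ≤ (s : ℝ) := by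
    intro c hc0 hc
    filter_upwards [analysis d hd c hc0 hc] with n hn A hA
    obtain ⟨s, h1, h2, h3, h4⟩ := hn
    obtain ⟨T, hT, hE⟩ := core d n s hd h1 h3 h4 A hA
    exact ⟨s, T, hT, hE, h2⟩
  refine ⟨key, ?_⟩
  · intro C
    have hq : (1 / 4 : ℝ) < 1 - 1 / (d : ℝ) := by linarith
    have hlim : Tendsto (fun n : ℕ => (1 / 4 * Real.log (n : ℝ)) ^ (1 / (d : ℝ))) atTop atTop :=
      (tendsto_rpow_atTop (by positivity)).comp
        ((Real.tendsto_log_atTop.comp
          (tendsto_natCast_atTop_atTop (R := ℝ))).const_mul_atTop (by norm_num))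
    filter_upwards [key (1 / 4) (by norm_num) hq, hlim.eventually_gt_atTop C,
      (Real.tendsto_log_atTop.comp
          (tendsto_natCast_atTop_atTop (R := ℝ))).eventually_ge_atTop 0,
      (tendsto_natCast_atTop_atTop (R := ℝ)).eventually_gt_atTop 0] with n hn hC hl hn0 A hA
    obtain ⟨s, T, hT, hE, hs⟩ := hn A hA
    refine ⟨s, T, hT, hE, lt_of_lt_of_le ?_ hs⟩
    have h1 : (1 / 4 * ((n : ℝ) * Real.log n)) ^ (1 / (d : ℝ)) =
        (1 / 4 * Real.log (n : ℝ)) ^ (1 / (d : ℝ)) * (n : ℝ) ^ (1 / (d : ℝ)) := by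
      rw [← Real.mul_rpow (by
        have : 0 ≤ Real.log (n : ℝ) := hl
        positivity) hn0.le]
      congr 1; ring
    rw [h1]
    exact mul_lt_mul_of_pos_right hC (by positivity)

end Pool.Agent.Results.MP_2f48ba_co.LogFactorNeeded
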